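import Pool.Agent.N988.EA.Stm

/-!
Project EA (helper988), parts MN and CF.
-/

set_option autoImplicit false

namespace Pool.Agent.N91.EA

open Pool.Agent.N988.EA

lemma tanh_mono {a b : ℝ} (h : a ≤ b) : Real.tanh a ≤ Real.tanh b := by
  have h1 : Real.tanh b - Real.tanh a = Real.sinh (b - a) / (Real.cosh a * Real.cosh b) := by
    rw [Real.tanh_eq_sinh_div_cosh, Real.tanh_eq_sinh_div_cosh, Real.sinh_sub]
    have ha := (Real.cosh_pos a).ne'
    have hb := (Real.cosh_pos b).ne'
    field_simp
  have h2 : 0 ≤ Real.sinh (b - a) / (Real.cosh a * Real.cosh b) :=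
    div_nonneg (Real.sinh_nonneg_iff.2 (by linarith))
      (mul_nonneg (Real.cosh_pos a).le (Real.cosh_pos b).le)
  linarith

lemma tanh_nonneg {a : ℝ} (h : 0 ≤ a) : 0 ≤ Real.tanh a := by
  have := tanh_mono h
  rwa [Real.tanh_zero] at this

lemma tanh_nonpos {a : ℝ} (h : a ≤ 0) : Real.tanh a ≤ 0 := by
  have := tanh_mono h
  rwa [Real.tanh_zero] at this

lemma abs_tanh (a : ℝ) : |Real.tanh a| = Real.tanh |a| := by
  rcases le_total 0 a with h | h
  · rw [abs_of_nonneg h, abs_of_nonneg (tanh_nonneg h)]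
  · rw [abs_of_nonpos h, abs_of_nonpos (tanh_nonpos h), Real.tanh_neg]

lemma tanh_add_mul (a b : ℝ) :
    (1 + Real.tanh a * Real.tanh b) * Real.tanh (a + b) = Real.tanh a + Real.tanh b := by
  rw [Real.tanh_eq_sinh_div_cosh, Real.tanh_eq_sinh_div_cosh, Real.tanh_eq_sinh_div_cosh,
    Real.sinh_add]
  have ha := (Real.cosh_pos a).ne'
  have hb := (Real.cosh_pos b).ne'
  have hab := (Real.cosh_pos (a + b)).ne'
  field_simp
  rw [Real.cosh_add]
  ring

lemma abs_tanh_add_le (a b : ℝ) : |Real.tanh (a + b)| ≤ |Real.tanh a| + |Real.tanh b| := by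
  rw [abs_tanh, abs_tanh a, abs_tanh b]
  have h1 : Real.tanh |a + b| ≤ Real.tanh (|a| + |b|) := tanh_mono (abs_add_le a b)
  have h2 := tanh_add_mul |a| |b|
  have ha := tanh_nonneg (abs_nonneg a)
  have hb := tanh_nonneg (abs_nonneg b)
  have hab := tanh_nonneg (add_nonneg (abs_nonneg a) (abs_nonneg b))
  nlinarith [mul_nonneg (mul_nonneg ha hb) hab]

lemma sg_true : sg true = 1 := rfl

lemma sg_false : sg false = -1 := rfl

/-- the linear form of the mean of the middle spin -/
lemma lin_mid (k l : ℝ) : ∃ α γ : ℝ, |α| + |γ| ≤ |Real.tanh k| + |Real.tanh l| ∧ |α| + |γ| ≤ 1 ∧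
    ∀ s t : Bool, Real.tanh (k * sg s + l * sg t) = α * sg s + γ * sg t := by
  refine ⟨(Real.tanh (k + l) + Real.tanh (k - l)) / 2, (Real.tanh (k + l) - Real.tanh (k - l)) / 2,
    ?_, ?_, ?_⟩
  · have h1 := abs_tanh_add_le k l
    have h2 := abs_tanh_add_le k (-l)
    rw [Real.tanh_neg, abs_neg, ← sub_eq_add_neg] at h2
    rcases abs_cases (Real.tanh (k + l)) with h3 | h3 <;>
      rcases abs_cases (Real.tanh (k - l)) with h4 | h4 <;>
      rcases abs_cases ((Real.tanh (k + l) + Real.tanh (k - l)) / 2) with h5 | h5 <;>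
      rcases abs_cases ((Real.tanh (k + l) - Real.tanh (k - l)) / 2) with h6 | h6 <;>
      linarith
  · have h1 := (Real.abs_tanh_lt_one (k + l)).le
    have h2 := (Real.abs_tanh_lt_one (k - l)).le
    rcases abs_cases (Real.tanh (k + l)) with h3 | h3 <;>
      rcases abs_cases (Real.tanh (k - l)) with h4 | h4 <;>
      rcases abs_cases ((Real.tanh (k + l) + Real.tanh (k - l)) / 2) with h5 | h5 <;>
      rcases abs_cases ((Real.tanh (k + l) - Real.tanh (k - l)) / 2) with h6 | h6 <;>
      linarith
  · intro s t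
    have e1 : Real.tanh (-k + -l) = -Real.tanh (k + l) := by
      rw [← Real.tanh_neg]; congr 1; ring
    have e2 : Real.tanh (-k + l) = -Real.tanh (k - l) := by
      rw [← Real.tanh_neg]; congr 1; ring
    cases s <;> cases t <;> simp only [sg_true, sg_false, mul_one, mul_neg]
    · rw [e1]; ring
    · rw [e2]; ring
    · rw [← sub_eq_add_neg]; ring
    · ring

theorem t_CF (h : S_G) : S_CF := by
  intro b
  obtain ⟨-, hG1, hG2⟩ := h b
  have key : ∀ (n : ℕ) (J : Edge b (n + 1) → ℝ) (i : Fin b), ∃ α γ : ℝ,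
      |α| + |γ| ≤ |Real.tanh (K n fun e => J (i, false, e))| +
        |Real.tanh (K n fun e => J (i, true, e))| ∧ |α| + |γ| ≤ 1 ∧
      (∀ τ, mag J τ (Sum.inl i : Vert b (n + 1)) = α * sg (τ false) + γ * sg (τ true)) ∧
      (∀ (x : Vert b n) (A B : ℝ),
        (∀ τ, mag (fun e => J (i, false, e)) τ x = A * sg (τ false) + B * sg (τ true)) →
        ∀ τ, mag J τ (Sum.inr (i, false, x) : Vert b (n + 1)) =
          (A + B * α) * sg (τ false) + B * γ * sg (τ true)) ∧
      (∀ (x : Vert b n) (A B : ℝ),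
        (∀ τ, mag (fun e => J (i, true, e)) τ x = A * sg (τ false) + B * sg (τ true)) →
        ∀ τ, mag J τ (Sum.inr (i, true, x) : Vert b (n + 1)) =
          A * α * sg (τ false) + (A * γ + B) * sg (τ true)) := by
    intro n J i
    obtain ⟨α, γ, h1, h2, h3⟩ := lin_mid (K n fun e => J (i, false, e))
      (K n fun e => J (i, true, e))
    refine ⟨α, γ, h1, h2, ?_, ?_, ?_⟩
    · intro τ
      rw [hG1, h3]
    · intro x A B hAB τ
      rw [hG2, Fintype.sum_bool, hAB, hAB, h3]
      simp only [sg_true, sg_false, if_true, reduceCtorEq, if_false]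
      ring
    · intro x A B hAB τ
      rw [hG2, Fintype.sum_bool, hAB, hAB, h3]
      simp only [sg_true, sg_false, if_true, reduceCtorEq, if_false]
      ring
  refine ⟨?_, ?_⟩
  · intro n
    induction n with
    | zero => intro J x; exact x.elim
    | succ n ih =>
      intro J x
      rcases x with i | ⟨i, s, x⟩
      · obtain ⟨α, γ, -, h2, h3, -, -⟩ := key n J i
        exact ⟨α, γ, h2, h3⟩
      · obtain ⟨α, γ, -, h2, -, h4, h5⟩ := key n J i
        obtain ⟨A, B, hAB, hm⟩ := ih (fun e => J (i, s, e)) x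
        cases s with
        | false =>
          refine ⟨A + B * α, B * γ, ?_, h4 x A B hm⟩
          calc |A + B * α| + |B * γ| ≤ |A| + |B * α| + |B * γ| := by
                gcongr; exact abs_add_le _ _
            _ = |A| + |B| * (|α| + |γ|) := by rw [abs_mul, abs_mul]; ring
            _ ≤ |A| + |B| * 1 := by gcongr
            _ ≤ 1 := by rw [mul_one]; exact hAB
        | true =>
          refine ⟨A * α, A * γ + B, ?_, h5 x A B hm⟩
          calc |A * α| + |A * γ + B| ≤ |A * α| + (|A * γ| + |B|) := by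
                gcongr; exact abs_add_le _ _
            _ = |A| * (|α| + |γ|) + |B| := by rw [abs_mul, abs_mul]; ring
            _ ≤ |A| * 1 + |B| := by gcongr
            _ ≤ 1 := by rw [mul_one]; exact hAB
  · intro n J i
    obtain ⟨α, γ, h1, -, h3, h4, h5⟩ := key n J i
    exact ⟨α, γ, h1, h3, h4, h5⟩

lemma sg_abs (s : Bool) : |sg s| = 1 := by
  cases s <;> simp [sg]

lemma one_sub_gp_le (k l : ℝ) (s t : Bool) :
    1 - gp k l ≤ |Real.tanh (k * sg s + l * sg t)| := by
  unfold gp
  rw [abs_tanh, sub_sub_cancel]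
  apply tanh_mono
  have h1 : |(|k| - |l|)| = |(|k * sg s| - |(-(l * sg t))|)| := by
    rw [abs_neg, abs_mul, abs_mul, sg_abs, sg_abs, mul_one, mul_one]
  rw [h1]
  have h2 := abs_abs_sub_abs_le (k * sg s) (-(l * sg t))
  rwa [sub_neg_eq_add] at h2

/-- a sign close to `m` -/
lemma exists_sign (m : ℝ) (hm : |m| ≤ 1) : ∃ s : Bool, |sg s - m| = 1 - |m| := by
  rcases le_total 0 m with h | h
  · refine ⟨true, ?_⟩
    rw [abs_of_nonneg h] at hm ⊢
    rw [sg_true, abs_of_nonneg (by linarith)]
  · refine ⟨false, ?_⟩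
    rw [abs_of_nonpos h] at hm ⊢
    rw [sg_false, abs_of_nonpos (by linarith)]
    ring

theorem t_MN (h : S_G) : S_MN := by
  intro b n J i
  have hCF := (t_CF h b).1
  obtain ⟨-, hG1, hG2⟩ := h b
  refine ⟨?_, ?_⟩
  · apply le_ciInf
    intro τ
    rw [hG1]
    exact one_sub_gp_le _ _ _ _
  · intro s x
    apply le_ciInf
    intro τ
    obtain ⟨A, B, hAB, hm⟩ := hCF n (fun e => J (i, s, e)) x
    set m := Real.tanh ((K n fun e => J (i, false, e)) * sg (τ false) +
        (K n fun e => J (i, true, e)) * sg (τ true)) with hmdef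
    have hm1 : |m| ≤ 1 := (Real.abs_tanh_lt_one _).le
    have hm2 : 1 - gp (K n fun e => J (i, false, e)) (K n fun e => J (i, true, e)) ≤ |m| :=
      one_sub_gp_le _ _ _ _
    obtain ⟨u, hu⟩ := exists_sign m hm1
    have hB : |B| ≤ 1 := by linarith [abs_nonneg A]
    have hA : |A| ≤ 1 := by linarith [abs_nonneg B]
    have hbdd : BddBelow (Set.range fun τ => |mag (fun e => J (i, s, e)) τ x|) :=
      (Set.finite_range _).bddBelow
    have hinf := ciInf_le hbdd (fun t => if t = s then τ t else u)
    have hgoal : ∀ (c : ℝ), |c| ≤ 1 →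
        |mag J τ (Sum.inr (i, s, x) : Vert b (n + 1)) -
          mag (fun e => J (i, s, e)) (fun t => if t = s then τ t else u) x| = |c * (sg u - m)| →
        (⨅ τ, |mag (fun e => J (i, s, e)) τ x|) -
          gp (K n fun e => J (i, false, e)) (K n fun e => J (i, true, e)) ≤
          |mag J τ (Sum.inr (i, s, x) : Vert b (n + 1))| := by
      intro c hc he
      have h1 : |c * (sg u - m)| ≤
          gp (K n fun e => J (i, false, e)) (K n fun e => J (i, true, e)) := by
        rw [abs_mul, hu]
        calc |c| * (1 - |m|) ≤ 1 * (1 - |m|) := by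
              apply mul_le_mul_of_nonneg_right hc
              linarith
          _ ≤ _ := by linarith
      have h2 : |mag (fun e => J (i, s, e)) (fun t => if t = s then τ t else u) x| ≤
          |mag J τ (Sum.inr (i, s, x) : Vert b (n + 1))| +
          |mag J τ (Sum.inr (i, s, x) : Vert b (n + 1)) -
          mag (fun e => J (i, s, e)) (fun t => if t = s then τ t else u) x| := by
        have h3 := abs_sub_abs_le_abs_sub
          (mag (fun e => J (i, s, e)) (fun t => if t = s then τ t else u) x)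
          (mag J τ (Sum.inr (i, s, x) : Vert b (n + 1)))
        rw [abs_sub_comm] at h3
        linarith
      linarith
    cases s with
    | false =>
      apply hgoal B hB
      rw [hG2, Fintype.sum_bool, hm, hm, hm, ← hmdef]
      simp only [sg_true, sg_false, if_true, reduceCtorEq, if_false]
      rw [← abs_neg]
      congr 1
      ring
    | true =>
      apply hgoal A hA
      rw [hG2, Fintype.sum_bool, hm, hm, hm, ← hmdef]
      simp only [sg_true, sg_false, if_true, reduceCtorEq, if_false]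
      rw [← abs_neg]
      congr 1
      ring

end Pool.Agent.N91.EA
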