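import Mathlib
import Pool.Agent.N212.KS.Stm

/-!
# KS/DEG: growth of the degrees
-/

set_option autoImplicit false

namespace Pool.Agent.N91.KS

open Pool.Agent.N212.KS

theorem t_DEG.{u, v, w, z} : Pool.Agent.N212.KS.S_DEG.{u, v, w, z} := by
  intro X N G ι _ _ _ _ _ _ D P E f d hd
  obtain ⟨⟨i0, hi0⟩, hub⟩ := hd
  have hi0' : E.χ i0 f = d := hi0
  have hle : ∀ i, E.χ i f ≤ d := fun i => hub ⟨i, rfl⟩
  have hpow : ∀ (i : ι) (n : ℕ), P.pull (f ^ n) (E.ℓ i) = (E.χ i f) ^ n • E.ℓ i := by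
    intro i n
    rw [E.pull_ℓ, map_pow]
  obtain ⟨C, hC0, hC⟩ := E.big
  obtain ⟨C1, hC1⟩ := D.theta_dom (E.ℓ i0)
  have hIp := E.I_pos
  have hlow : ∀ n : ℕ, d ^ n * D.I (E.ℓ i0) ≤ C1 * D.I (P.pull (f ^ n) D.θ) := by
    intro n
    have h := D.I_eff _ (P.pull_eff (f ^ n) _ hC1)
    rw [map_sub, map_sub, map_smul, map_smul, hpow, map_smul, hi0', smul_eq_mul, smul_eq_mul] at h
    linarith
  have hnn : ∀ n : ℕ, 0 ≤ D.I (P.pull (f ^ n) D.θ) := fun n =>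
    D.I_eff _ (P.pull_eff (f ^ n) _ D.theta_eff)
  have hC1pos : 0 < C1 := by
    have h0 := hlow 0
    rw [pow_zero, one_mul] at h0
    have h1 := hIp i0
    have h2 := hnn 0
    by_contra hcon
    push Not at hcon
    have := mul_nonpos_of_nonpos_of_nonneg hcon h2
    linarith
  refine ⟨D.I (E.ℓ i0) / C1, C * ∑ i, D.I (E.ℓ i), div_pos (hIp i0) hC1pos, fun n => ⟨?_, ?_⟩⟩
  · rw [div_mul_eq_mul_div, div_le_iff₀ hC1pos]
    have := hlow n
    linarith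
  · have h := D.I_eff _ (P.pull_eff (f ^ n) _ hC)
    rw [map_sub, map_sub, map_smul, map_smul, map_sum, map_sum, smul_eq_mul] at h
    have h2 : ∑ i, D.I (P.pull (f ^ n) (E.ℓ i)) ≤ (∑ i, D.I (E.ℓ i)) * d ^ n := by
      rw [Finset.sum_mul]
      refine Finset.sum_le_sum fun i _ => ?_
      rw [hpow, map_smul, smul_eq_mul, mul_comm]
      exact mul_le_mul_of_nonneg_left (pow_le_pow_left₀ (E.χ_pos i f).le (hle i) n) (hIp i).le
    have h3 := mul_le_mul_of_nonneg_left h2 hC0.le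
    rw [mul_assoc]
    linarith

end Pool.Agent.N91.KS
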