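import Pool.Agent.N607.LESM
import Pool.Agent.N367.LE.Stm2

/-!
Project LE: the small cases, second interface.
-/

set_option autoImplicit false

namespace Pool.Agent.N91.LESM10

open Pool.Agent.N607.LESM

/-- the small witnesses -/
def rs : List ℕ := [3, 5, 7, 11, 13, 17, 19, 23, 29]

/-- the test of a small witness -/
noncomputable def ws1 (D r : ℕ) : Bool :=
  and (Nat.ble (Nat.mul 4 (Nat.mul (Nat.mul r r) (Nat.mul r r))) D) (sq r D)

/-- there is a small witness -/
noncomputable def ws (D : ℕ) : Bool :=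
  List.rec false (fun r _ ih => or (ws1 D r) ih) rs

/-- `m` is composite -/
noncomputable def comp2 (m : ℕ) : Bool :=
  anyb (fun k => and (Nat.beq (Nat.mod m (Nat.add (Nat.mul 2 k) 3)) 0)
    (Nat.blt (Nat.add (Nat.mul 2 k) 3) m)) 400

/-- the test of a divisor -/
noncomputable def chd2 (D d : ℕ) : Bool :=
  or (not (Nat.beq (Nat.mod D d) 0)) (or (Nat.ble D (Nat.mul d d))
    (or (wit D d) (or (comp2 d) (comp2 (Nat.div D d)))))

/-- the test of `n` -/
noncomputable def chn2 (n : ℕ) : Bool :=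
  allb (fun k => chd2 (Nat.add (Nat.mul n n) 4) (Nat.add (Nat.mul 2 k) 3)) 960

/-- the whole check -/
noncomputable def chk2 (a b : ℕ) : Bool :=
  allb (fun k => or (ws (Nat.add (Nat.mul (Nat.add (Nat.mul 2 (Nat.add a k)) 1)
    (Nat.add (Nat.mul 2 (Nat.add a k)) 1)) 4))
    (chn2 (Nat.add (Nat.mul 2 (Nat.add a k)) 1))) b

theorem chk2_all : chk2 360 601 = true := by decide +kernel

theorem comp2_np {m : ℕ} (h : comp2 m = true) : ¬ m.Prime := by
  rw [comp2, anyb_iff] at h
  obtain ⟨k, -, h1⟩ := h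
  rw [Bool.and_eq_true] at h1
  have h2 : m % (2 * k + 3) = 0 := beq_i.1 h1.1
  have h3 : 2 * k + 3 < m := blt_i.1 h1.2
  intro hm
  rcases (Nat.dvd_prime hm).1 (Nat.dvd_of_mod_eq_zero h2) with h4 | h4
  · omega
  · omega

theorem ws_ex {D : ℕ} (h : ws D = true) : ∃ r ∈ rs, ws1 D r = true := by
  have key : ∀ l : List ℕ, (List.rec false (fun r _ ih => or (ws1 D r) ih) l : Bool) = true →
      ∃ r ∈ l, ws1 D r = true := by
    intro l
    induction l with
    | nil =>
      intro h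
      exact absurd h Bool.false_ne_true
    | cons a l ih =>
      intro h
      have h1 : or (ws1 D a)
        (List.rec false (fun r _ ih => or (ws1 D r) ih) l : Bool) = true := h
      rw [Bool.or_eq_true] at h1
      rcases h1 with h1 | h1
      · exact ⟨a, List.mem_cons_self, h1⟩
      · obtain ⟨r, hr, h2⟩ := ih h1
        exact ⟨r, List.mem_cons_of_mem a hr, h2⟩
  exact key rs h

theorem rs_prime : ∀ r ∈ rs, r.Prime ∧ r ≠ 2 := by
  intro r hr
  simp only [rs, List.mem_cons, List.not_mem_nil, or_false] at hr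
  rcases hr with rfl | rfl | rfl | rfl | rfl | rfl | rfl | rfl | rfl <;> norm_num

theorem main (n p q : ℕ) (hn : n % 2 = 1) (hp : p.Prime) (hq : q.Prime) (hpq : p < q)
    (hD : n ^ 2 + 4 = p * q) (hn2 : n < 1922)
    (hr : ∀ r : ℕ, r.Prime → r ≠ 2 → jacobiSym ((n : ℤ) ^ 2 + 4) r = 1 →
      4 * r ^ 2 < n ^ 2 + 4 → jacobiSym r p = -1 ∧ n ^ 2 + 4 < 4 * r ^ 4) :
    n = 9 ∨ n = 19 ∨ n = 23 ∨ n = 25 ∨ n = 31 ∨ n = 41 ∨ n = 43 ∨ n = 53 := by
  by_cases hs : n < 722
  · exact sm n p q hn hp hq hpq hD hs hr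
  exfalso
  push Not at hs
  have hodd : (n ^ 2 + 4) % 2 = 1 := by
    rw [Nat.add_mod, Nat.pow_mod, hn]
  have hp2 : p % 2 = 1 := by
    rcases hp.eq_two_or_odd with h | h
    · rw [hD, h, Nat.mul_mod_right] at hodd
      omega
    · exact h
  have hp3 : 3 ≤ p := by
    have := hp.two_le
    omega
  have hpl : p < 1922 := by
    by_contra h
    push Not at h
    have h1 : 1922 * 1922 ≤ p * q := Nat.mul_le_mul h (by omega)
    have h2 : n ^ 2 ≤ 1921 ^ 2 := Nat.pow_le_pow_left (by omega) 2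
    omega
  have h1 := (allb_iff _ _).1 chk2_all (n / 2 - 360) (by omega)
  have e1 : Nat.add (Nat.mul 2 (Nat.add 360 (n / 2 - 360))) 1 = n := by
    show 2 * (360 + (n / 2 - 360)) + 1 = n
    omega
  have e3 : Nat.add (Nat.mul n n) 4 = n ^ 2 + 4 := by
    show n * n + 4 = n ^ 2 + 4
    rw [pow_two]
  rw [e1, e3, Bool.or_eq_true] at h1
  set D := n ^ 2 + 4 with hDD
  rcases h1 with h1 | h1
  · obtain ⟨r, hrl, h3⟩ := ws_ex h1
    obtain ⟨h4, h5⟩ := rs_prime r hrl
    rw [ws1, Bool.and_eq_true] at h3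
    obtain ⟨h6, h7⟩ := h3
    have h9 := sq_jac h4 h7
    have h16 : 4 * ((r * r) * (r * r)) ≤ D := ble_i.1 h6
    have h17 : 4 * r ^ 4 = 4 * ((r * r) * (r * r)) := by ring
    have h4r : 4 ≤ r * r := Nat.mul_le_mul h4.two_le h4.two_le
    have h10 : 4 * r ^ 2 < D := by
      have h11 : 4 * (r * r) ≤ (r * r) * (r * r) := Nat.mul_le_mul_right _ h4r
      rw [pow_two]
      omega
    have h12 : jacobiSym ((n : ℤ) ^ 2 + 4) r = 1 := by
      rw [hDD] at h9
      push_cast at h9
      exact h9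
    obtain ⟨h13, h14⟩ := hr r h4 h5 h12 h10
    rw [h17] at h14
    omega
  have h2 := (allb_iff _ _).1 h1 ((p - 3) / 2) (by omega)
  have e2 : Nat.add (Nat.mul 2 ((p - 3) / 2)) 3 = p := by
    show 2 * ((p - 3) / 2) + 3 = p
    omega
  rw [e2, e3] at h2
  simp only [chd2, Bool.or_eq_true] at h2
  rcases h2 with h2 | h2 | h2 | h2 | h2
  · have h3 : D % p = 0 := by
      rw [hD]
      exact Nat.mul_mod_right p q
    have h4 : Nat.beq (Nat.mod D p) 0 = true := beq_i.2 h3
    rw [h4] at h2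
    exact absurd h2 (by decide)
  · have h3 : D ≤ p * p := ble_i.1 h2
    rw [hD] at h3
    have h4 : p * p < p * q := Nat.mul_lt_mul_of_pos_left hpq hp.pos
    omega
  · obtain ⟨r, hrl, h3⟩ := wit_ex h2
    obtain ⟨h4, h5⟩ := rl_prime r hrl
    rw [wit1, Bool.and_eq_true, Bool.and_eq_true, Bool.or_eq_true, Bool.and_eq_true] at h3
    obtain ⟨h6, h7, h8⟩ := h3
    have h9 := sq_jac h4 h7
    have h10 : 4 * r ^ 2 < D := by
      have h11 : 4 * (r * r) < D := blt_i.1 h6
      rw [pow_two]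
      exact h11
    have h12 : jacobiSym ((n : ℤ) ^ 2 + 4) r = 1 := by
      rw [hDD] at h9
      push_cast at h9
      exact h9
    obtain ⟨h13, h14⟩ := hr r h4 h5 h12 h10
    rcases h8 with h8 | ⟨h8, h15⟩
    · have h16 : 4 * ((r * r) * (r * r)) ≤ D := ble_i.1 h8
      have h17 : 4 * r ^ 4 = 4 * ((r * r) * (r * r)) := by ring
      rw [h17] at h14
      omega
    · have h16 : p % 4 = 1 := beq_i.1 h8
      have h17 := sq_jac h4 h15
      have h18 : Odd r := h4.odd_of_ne_two h5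
      rw [jacobiSym.quadratic_reciprocity_one_mod_four h16 h18] at h17
      rw [h17] at h13
      exact absurd h13 (by decide)
  · exact comp2_np h2 hp
  · have h3 : Nat.div D p = q := by
      show D / p = q
      rw [hD]
      exact Nat.mul_div_cancel_left q hp.pos
    rw [h3] at h2
    exact comp2_np h2 hq

theorem sm10 : Pool.Agent.N367.LE.S_SM10 := main

end Pool.Agent.N91.LESM10
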