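import Pool.Agent.N585.PT.Defs

/-!
# Path-like trees, part PT/9: correctness of the table (project PT of helper585)
-/

set_option autoImplicit false

namespace Pool.Agent.N91.PT9

open Pool.Agent.N585.PT Pool.Agent.H622R2 Pool.Agent.NPC.N585FP

variable {M : List (List Bool)}

lemma adjB_iff (u v : Fin M.length) : adjB M u v = true ↔ (matGraph M).Adj u v := by
  simp [adjB, matGraph, Fin.ext_iff]

lemma onB_iff (h : StmRa) (x y w : Fin M.length) : onB M x y w = true ↔ onP (matGraph M) x y w := by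
  have h1 := (h M).1 w x y
  unfold onB onP
  rw [← h1]
  simp [Fin.ext_iff]

/-- length of a filter of `List.range` -/
lemma len_filter (n : ℕ) (p : ℕ → Bool) (q : Fin n → Prop) [DecidablePred q]
    (hpq : ∀ i : Fin n, p i = true ↔ q i) :
    ((List.range n).filter p).length = (Finset.univ.filter q).card := by
  have h1 : ((List.range n).filter p).length = ((Finset.range n).filter fun i => p i = true).card := by
    rw [← List.toFinset_range, ← List.toFinset_filter, List.toFinset_card_of_nodup]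
    exact List.Nodup.filter _ List.nodup_range
  rw [h1]
  symm
  refine Finset.card_bij (fun i _ => i.1) ?_ ?_ ?_
  · intro i hi
    rw [Finset.mem_filter] at hi ⊢
    exact ⟨Finset.mem_range.2 i.2, (hpq i).2 hi.2⟩
  · intro i _ j _ hij
    exact Fin.ext hij
  · intro i hi
    rw [Finset.mem_filter, Finset.mem_range] at hi
    exact ⟨⟨i, hi.1⟩, by rw [Finset.mem_filter]; exact ⟨Finset.mem_univ _, (hpq ⟨i, hi.1⟩).1 hi.2⟩, rfl⟩

lemma ddB_eq (h : StmRa) (x y : Fin M.length) : ddB M x y = dd (matGraph M) x y := by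
  classical
  unfold ddB dd
  rw [len_filter M.length (fun w => onB M x y w) (fun w => onP (matGraph M) x y w)
    (fun w => onB_iff h x y w)]

lemma brB_eq (h : StmRa) (u v : Fin M.length) : brB M u v = br (matGraph M) u v := by
  classical
  unfold brB br
  rw [len_filter M.length (fun w => raB M u v w) (fun w => RA (matGraph M) u v w)
    (fun w => (h M).1 u v w)]

lemma any_iff (n : ℕ) (p : ℕ → Bool) : (List.range n).any p = true ↔ ∃ i : Fin n, p i = true := by
  rw [List.any_eq_true]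
  constructor
  · rintro ⟨i, hi, hp⟩
    exact ⟨⟨i, List.mem_range.1 hi⟩, hp⟩
  · rintro ⟨i, hi⟩
    exact ⟨i.1, List.mem_range.2 i.2, hi⟩

/-- the meaning of nextB -/
lemma nextB_iff (h : StmRa) (T : List (ℕ × ℕ × ℕ)) (m u : ℕ) (x y : Fin M.length) :
    nextB M T m u x y = true ↔ dd (matGraph M) x y = m ∨ ∃ u' v' : Fin M.length,
      onP (matGraph M) x y u' ∧ (matGraph M).Adj u' v' ∧ ¬ onP (matGraph M) x y v' ∧ v'.1 ≠ u ∧
      dd (matGraph M) x y + br (matGraph M) u' v' = m ∧
      (u'.1, v'.1, dd (matGraph M) u' y) ∈ T := by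
  unfold nextB
  rw [Bool.or_eq_true, decide_eq_true_iff, ddB_eq h, any_iff]
  refine or_congr Iff.rfl (exists_congr fun u' => ?_)
  rw [any_iff]
  refine exists_congr fun v' => ?_
  simp only [Bool.and_eq_true, Bool.not_eq_true', decide_eq_true_iff, decide_eq_false_iff_not]
  rw [onB_iff h, adjB_iff, ddB_eq h, brB_eq h, ← Bool.not_eq_true, onB_iff h]
  tauto

lemma mem_trip (s : ℕ × ℕ × ℕ) : s ∈ trip M ↔ s.1 < M.length ∧ s.2.1 < M.length ∧ s.2.2 < M.length + 1 := by
  obtain ⟨a, b, c⟩ := s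
  unfold trip
  simp only [List.mem_flatMap, List.mem_map, List.mem_range, Prod.mk.injEq]
  constructor
  · rintro ⟨u, hu, v, hv, k, hk, rfl, rfl, rfl⟩
    exact ⟨hu, hv, hk⟩
  · rintro ⟨hu, hv, hk⟩
    exact ⟨a, hu, b, hv, c, hk, rfl, rfl, rfl⟩

lemma mem_cstep (h : StmRa) (T : List (ℕ × ℕ × ℕ)) (u v : Fin M.length) (k : ℕ) :
    (u.1, v.1, k) ∈ cstep M T ↔ k < M.length + 1 ∧ ∃ x y : Fin M.length,
      onP (matGraph M) x y v ∧ dd (matGraph M) x v = k ∧ RA (matGraph M) u v x ∧
      RA (matGraph M) u v y ∧ nextB M T (br (matGraph M) u v) u x y = true := by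
  unfold cstep
  rw [List.mem_filter, mem_trip, any_iff]
  simp only
  have h1 : ∀ x : Fin M.length, ((List.range M.length).any fun y =>
      ((onB M x y v && decide (ddB M x v = k)) &&
      (raB M u v x && raB M u v y)) && nextB M T (brB M u v) u x y) = true ↔
      ∃ y : Fin M.length, onP (matGraph M) x y v ∧ dd (matGraph M) x v = k ∧ RA (matGraph M) u v x ∧
      RA (matGraph M) u v y ∧ nextB M T (br (matGraph M) u v) u x y = true := by
    intro x
    rw [any_iff]
    refine exists_congr fun y => ?_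
    simp only [Bool.and_eq_true, decide_eq_true_iff]
    rw [onB_iff h, ddB_eq h, brB_eq h, (h M).1 u v x, (h M).1 u v y]
    tauto
  rw [exists_congr h1]
  have hu := u.2
  have hv := v.2
  tauto

lemma dd_le (x y : Fin M.length) : dd (matGraph M) x y ≤ M.length := by
  classical
  unfold dd
  refine (Finset.card_filter_le _ _).trans ?_
  simp

lemma br_le (x y : Fin M.length) : br (matGraph M) x y ≤ M.length := by
  classical
  unfold br
  refine (Finset.card_filter_le _ _).trans ?_
  simp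

lemma dd_pos (x y : Fin M.length) : 1 ≤ dd (matGraph M) x y := by
  classical
  unfold dd
  rw [Nat.one_le_iff_ne_zero, ← Nat.pos_iff_ne_zero, Finset.card_pos]
  exact ⟨x, by rw [Finset.mem_filter]; exact ⟨Finset.mem_univ _, Or.inl rfl⟩⟩

/-- the tables -/
def tb (M : List (List Bool)) (r : ℕ) : List (ℕ × ℕ × ℕ) := (cstep M)^[r] []

lemma foldl_iter {α : Type} (f : α → α) (n : ℕ) (a : α) :
    (List.range n).foldl (fun T _ => f T) a = f^[n] a := by
  induction n with
  | zero => rfl
  | succ n ih => rw [List.range_succ, List.foldl_append, ih, Function.iterate_succ_apply']; rfl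

lemma tab_eq : tab M = tb M M.length := foldl_iter _ _ _

lemma tb_succ (r : ℕ) : tb M (r + 1) = cstep M (tb M r) := Function.iterate_succ_apply' _ _ _

lemma tb_trip (r : ℕ) (s : ℕ × ℕ × ℕ) (hs : s ∈ tb M r) : s.1 < M.length ∧ s.2.1 < M.length := by
  cases r with
  | zero => exact absurd hs (by simp [tb])
  | succ r =>
    rw [tb_succ, cstep, List.mem_filter, mem_trip] at hs
    exact ⟨hs.1.1, hs.1.2.1⟩

/-- soundness -/
lemma sound (h : StmRa) (r : ℕ) : ∀ (u v : Fin M.length) (k : ℕ), (u.1, v.1, k) ∈ tb M r →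
    CC (matGraph M) u v k := by
  induction r with
  | zero => intro u v k hk; exact absurd hk (by simp [tb])
  | succ r ih =>
    intro u v k hk
    rw [tb_succ, mem_cstep h] at hk
    obtain ⟨_, x, y, h1, rfl, h3, h4, h5⟩ := hk
    rw [nextB_iff h] at h5
    rcases h5 with h5 | ⟨u', v', g1, g2, g3, g4, g5, g6⟩
    · exact CC.last h1 h3 h4 h5
    · exact CC.cons h1 h3 h4 g1 g2 g3 (fun e => g4 (congrArg Fin.val e)) g5 (ih _ _ _ g6)

/-- completeness -/
lemma complete (h : StmRa) {u v : Fin M.length} {k : ℕ} (hc : CC (matGraph M) u v k) :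
    ∀ r, br (matGraph M) u v ≤ r → (u.1, v.1, k) ∈ tb M r := by
  induction hc with
  | @last u v x y h1 h2 h3 h4 =>
    intro r hr
    have := dd_pos x y
    obtain ⟨r, rfl⟩ : ∃ s, r = s + 1 := ⟨r - 1, by omega⟩
    rw [tb_succ, mem_cstep h]
    refine ⟨Nat.lt_succ_of_le (dd_le _ _), x, y, h1, rfl, h2, h3, ?_⟩
    rw [nextB_iff h]
    exact Or.inl h4
  | @cons u v x y u' v' h1 h2 h3 h4 h5 h6 h7 h8 h9 ih =>
    intro r hr
    have := dd_pos x y
    obtain ⟨r, rfl⟩ : ∃ s, r = s + 1 := ⟨r - 1, by omega⟩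
    rw [tb_succ, mem_cstep h]
    refine ⟨Nat.lt_succ_of_le (dd_le _ _), x, y, h1, rfl, h2, h3, ?_⟩
    rw [nextB_iff h]
    exact Or.inr ⟨u', v', h4, h5, h6, fun e => h7 (Fin.ext e), h8, ih r (by omega)⟩

theorem stmAlg (h : StmRa) : StmAlg := by
  intro M ht
  unfold algB
  rw [ht, Bool.true_and, any_iff]
  unfold Pool.Agent.N585.PT.Top
  refine exists_congr fun x => ?_
  rw [any_iff]
  refine exists_congr fun y => ?_
  rw [nextB_iff h, Fintype.card_fin]
  refine or_congr Iff.rfl (exists_congr fun u' => exists_congr fun v' => ?_)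
  constructor
  · rintro ⟨h1, h2, h3, _, h5, h6⟩
    rw [tab_eq] at h6
    exact ⟨h1, h2, h3, h5, sound h _ _ _ _ h6⟩
  · rintro ⟨h1, h2, h3, h5, h6⟩
    refine ⟨h1, h2, h3, v'.2.ne, h5, ?_⟩
    rw [tab_eq]
    exact complete h h6 _ (br_le _ _)

end Pool.Agent.N91.PT9
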